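import Pool.Agent.Helper11.PV.St2

/-!
# Project PV (MP_e12aa9_pr), part 2, module LOC: the local bound
-/

set_option autoImplicit false

namespace Pool.Agent.Helper93.PV

open Finset Filter MeasureTheory Pool.Agent.Helper82.CN Pool.Agent.Helper11.PV

theorem vn_eq (p : ℝ) (n : ℕ) : vn p n =
    EE p (fun ω : Sym2 (Fin n) → Bool => ch (gr ω) ^ 2) -
      (EE p (fun ω : Sym2 (Fin n) → Bool => ch (gr ω))) ^ 2 := by
  unfold vn
  have h1 : (fun ω : Sym2 (Fin n) → Bool => (ch (gr ω) - fn p n) ^ 2) =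
      fun ω => (ch (gr ω) ^ 2 - (2 * fn p n) * ch (gr ω)) + (fn p n) ^ 2 := by
    funext ω; ring
  rw [h1, EE_add, EE_sub, EE_mul_left, EE_const]
  have h2 : EE p (fun ω : Sym2 (Fin n) → Bool => ch (gr ω)) = fn p n := rfl
  rw [h2]
  ring

theorem EE_cont (hRUS : StRUS) {ι : Type} [Fintype ι] [DecidableEq ι] (F : (ι → Bool) → ℝ) :
    Continuous (fun q : ℝ => EE q F) :=
  continuous_iff_continuousAt.2 fun p => (hRUS p ι F).continuousAt

theorem vn_cont (hRUS : StRUS) (n : ℕ) : Continuous (fun p : ℝ => vn p n) := by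
  have h : (fun p : ℝ => vn p n) = fun p => EE p (fun ω : Sym2 (Fin n) → Bool => ch (gr ω) ^ 2) -
      (EE p (fun ω : Sym2 (Fin n) → Bool => ch (gr ω))) ^ 2 := by
    funext p; exact vn_eq p n
  rw [h]
  exact (EE_cont hRUS _).sub ((EE_cont hRUS _).pow 2)

theorem II_cont (hRUS : StRUS) (l n : ℕ) : Continuous (fun p : ℝ => II l n p) := by
  unfold II
  exact continuous_finsetSum _ fun e _ => EE_cont hRUS _

/-- powers of the logarithm against the square root -/
theorem log_small (ε : ℝ) (hε : 0 < ε) : ∀ᶠ n : ℕ in atTop, 1 ≤ Real.log n ∧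
    Real.log n ^ 3 ≤ ε * √(n : ℝ) := by
  have h1 : Tendsto (fun n : ℕ => √(n : ℝ)) atTop atTop :=
    Real.tendsto_sqrt_atTop.comp tendsto_natCast_atTop_atTop
  have h2 := (Real.isLittleO_pow_log_id_atTop (n := 3)).bound (show (0 : ℝ) < ε / 8 by positivity)
  have h3 := h1.eventually h2
  have h4 : ∀ᶠ n : ℕ in atTop, 3 ≤ n := eventually_ge_atTop 3
  filter_upwards [h3, h4] with n hn hn3
  have hn3' : (3 : ℝ) ≤ n := by exact_mod_cast hn3
  have hlog : 1 ≤ Real.log n := by
    rw [Real.le_log_iff_exp_le (by linarith)]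
    have := Real.exp_one_lt_d9
    linarith
  refine ⟨hlog, ?_⟩
  have h5 : Real.log (√(n : ℝ)) = Real.log n / 2 := Real.log_sqrt (by linarith)
  rw [h5] at hn
  simp only [id, Real.norm_eq_abs] at hn
  rw [abs_of_nonneg (by positivity), abs_of_nonneg (Real.sqrt_nonneg _)] at hn
  have h6 : (Real.log n / 2) ^ 3 = Real.log n ^ 3 / 8 := by ring
  rw [h6] at hn
  linarith

/-- the function `bb` -/
theorem bb_pos {p : ℝ} (h0 : 0 < p) (h1 : p < 1) : 0 < bb p := by
  unfold bb
  apply Real.log_pos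
  rw [lt_div_iff₀ (by linarith)]
  linarith

theorem bb_mono {a b : ℝ} (hab : a ≤ b) (h1 : b < 1) : bb a ≤ bb b := by
  unfold bb
  apply Real.log_le_log
  · have : 0 < 1 - a := by linarith
    positivity
  · apply one_div_le_one_div_of_le <;> linarith

theorem bb_sub {a b : ℝ} (hab : a ≤ b) (h1 : b < 1) : bb b - bb a ≤ (b - a) / (1 - b) := by
  unfold bb
  have ha : 0 < 1 - a := by linarith
  have hb : 0 < 1 - b := by linarith
  rw [one_div, one_div, Real.log_inv, Real.log_inv]
  have h2 : -Real.log (1 - b) - -Real.log (1 - a) = Real.log ((1 - a) / (1 - b)) := by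
    rw [Real.log_div ha.ne' hb.ne']; ring
  rw [h2]
  have h3 := Real.log_le_sub_one_of_pos (show 0 < (1 - a) / (1 - b) by positivity)
  have h4 : (1 - a) / (1 - b) - 1 = (b - a) / (1 - b) := by
    field_simp; ring
  linarith

/-- the difference of the expected functional and of `l E χ` -/
theorem low_PH {l n : ℕ} {a : ℝ} (h0 : 0 ≤ a) (h1 : a ≤ 1)
    (h : EE a (fun ω : Sym2 (Fin n) → Bool => ((l : ℝ) * ch (gr ω) - PH l ω) ^ 2) ≤
      2 * (l : ℝ) ^ 2 * √(n : ℝ)) (hn : 1 ≤ n) :
    (l : ℝ) * fn a n - (l : ℝ) * (2 * √(n : ℝ)) ≤ EE a (PH l : (Sym2 (Fin n) → Bool) → ℝ) := by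
  have h2 := EE_cs h0 h1 (fun ω : Sym2 (Fin n) → Bool => ((l : ℝ) * ch (gr ω) - PH l ω)) (fun _ => 1)
  simp only [mul_one, one_pow, EE_const] at h2
  have h3 : EE a (fun ω : Sym2 (Fin n) → Bool => ((l : ℝ) * ch (gr ω) - PH l ω)) =
      (l : ℝ) * fn a n - EE a (PH l : (Sym2 (Fin n) → Bool) → ℝ) := by
    rw [EE_sub, EE_mul_left]; rfl
  rw [h3] at h2
  have hn' : (1 : ℝ) ≤ n := by exact_mod_cast hn
  have hs : 1 ≤ √(n : ℝ) := by
    rw [show (1 : ℝ) = √1 by simp]
    exact Real.sqrt_le_sqrt hn'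
  have hl : (0 : ℝ) ≤ l := Nat.cast_nonneg _
  have h4 : ((l : ℝ) * fn a n - EE a (PH l : (Sym2 (Fin n) → Bool) → ℝ)) ^ 2 ≤
      ((l : ℝ) * (2 * √(n : ℝ))) ^ 2 := by
    have h5 : 2 * (l : ℝ) ^ 2 * √(n : ℝ) ≤ ((l : ℝ) * (2 * √(n : ℝ))) ^ 2 := by
      have h6 : √(n : ℝ) ≤ √(n : ℝ) ^ 2 := by nlinarith
      have h7 : 0 ≤ (l : ℝ) ^ 2 := by positivity
      nlinarith [mul_le_mul_of_nonneg_left h6 h7]
    linarith
  have h8 := abs_le_of_sq_le_sq h4 (by positivity)
  have h9 := (abs_le.mp h8).2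
  linarith

theorem tLOC (hPT2 : StPT2) (hRUS : StRUS) (hPHB : StPHB) (hLIM : StLIM) :
    Pool.Agent.Helper11.PV.StLOC := by
  intro p₀ p₁ hp0 hp01 hp1
  have hp1' : p₁ < 1 := by
    have : 0 < 1 / Real.exp 2 := by positivity
    linarith
  obtain ⟨C₁, hC₁, n₁, hn₁⟩ := hPT2 p₀ p₁ hp0 hp01 hp1'
  have hB0 : 0 < bb p₀ := bb_pos hp0 (by linarith)
  have h1p : 0 < 1 - p₁ := by linarith
  set K : ℝ := 1 / (2 * (1 - p₁)) + 1 with hK
  have hKpos : 0 < K := by positivity
  set C₂ : ℝ := 8 * K / bb p₀ + 1 with hC₂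
  have hC₂pos : 0 < C₂ := by positivity
  refine ⟨C₁ * (C₂ + 1), by positivity, ?_⟩
  intro a b hpa hab hbp
  have ha0 : 0 < a := by linarith
  have hb1 : b < 1 := by linarith
  have hba : 0 < bb a := bb_pos ha0 (by linarith)
  have hbba : bb p₀ ≤ bb a := bb_mono hpa (by linarith)
  have hlimA := hLIM a ha0 (by linarith)
  have hlimB := hLIM b (by linarith) (by linarith)
  have hE5 : ∀ᶠ n : ℕ in atTop, fn b n * Real.log n / n - fn a n * Real.log n / n <
      (bb b - bb a) / 2 + (b - a) := by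
    have h := hlimB.sub hlimA
    refine h.eventually_lt_const ?_
    linarith
  have hE6 : ∀ᶠ n : ℕ in atTop, bb a / 4 < fn a n * Real.log n / n := by
    refine hlimA.eventually_const_lt ?_
    linarith
  have hE2 := log_small 1 one_pos
  have hE3 := log_small (bb a / 16) (by positivity)
  have hE4 := log_small ((b - a) * bb p₀ / 16) (by
    have : 0 < b - a := by linarith
    positivity)
  have hev : ∀ᶠ n : ℕ in atTop, ∫ p in a..b, vn p n ≤ C₁ * (C₂ + 1) * (b - a) * (n / Real.log n ^ 3) := by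
    filter_upwards [hE5, hE6, hE2, hE3, hE4, eventually_ge_atTop n₁, eventually_ge_atTop 3] with n
      h5 h6 h2 h3 h4 hn hn3
    obtain ⟨l, hl1, hvn, hcmp⟩ := hn₁ n hn
    have hn3' : (3 : ℝ) ≤ n := by exact_mod_cast hn3
    have hn0 : (0 : ℝ) < n := by linarith
    have hL1 := h2.1
    have hL0 : 0 < Real.log n := by linarith
    have hL3 : Real.log n ≤ Real.log n ^ 3 := by
      have : 1 ≤ Real.log n ^ 2 := one_le_pow₀ hL1
      nlinarith
    have hs0 : 0 < √(n : ℝ) := Real.sqrt_pos.mpr hn0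
    have hss : √(n : ℝ) * √(n : ℝ) = n := Real.mul_self_sqrt hn0.le
    have hba' : 0 < b - a := by linarith
    have hl0 : (0 : ℝ) < l := by exact_mod_cast (by omega : 0 < l)
    -- the lower bound at `a`
    have hlow := low_PH (l := l) (n := n) ha0.le (by linarith) (hcmp a ha0.le (by linarith)) (by omega)
    -- the upper bound by `n`
    have hupn : EE a (PH l : (Sym2 (Fin n) → Bool) → ℝ) ≤ n := by
      have := EE_mono (p := a) ha0.le (by linarith) (F := (PH l : (Sym2 (Fin n) → Bool) → ℝ))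
        (G := fun _ => (n : ℝ)) (fun ω => by
          have := (hPHB (Fin n) l).1 (gr ω)
          rw [Fintype.card_fin] at this
          unfold PH
          exact_mod_cast this)
      rwa [EE_const] at this
    -- the upper bound at `b`
    have hupb : EE b (PH l : (Sym2 (Fin n) → Bool) → ℝ) ≤ (l : ℝ) * fn b n := by
      have := EE_mono (p := b) (by linarith) hb1.le (F := (PH l : (Sym2 (Fin n) → Bool) → ℝ))
        (G := fun ω => (l : ℝ) * ch (gr ω)) (fun ω => by
          have := (hPHB (Fin n) l).2.2.2.1 (gr ω)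
          unfold PH ch
          exact_mod_cast this)
      rwa [EE_mul_left] at this
    -- bound for `l`
    have hfa : bb a * n / (4 * Real.log n) ≤ fn a n := by
      rw [lt_div_iff₀ hn0] at h6
      rw [div_le_iff₀ (by positivity)]
      nlinarith
    have hr : 2 * √(n : ℝ) ≤ bb a * n / (8 * Real.log n) := by
      rw [le_div_iff₀ (by positivity)]
      have h7 : Real.log n ≤ bb a / 16 * √(n : ℝ) := le_trans hL3 h3.2
      have h8 : √(n : ℝ) * Real.log n ≤ √(n : ℝ) * (bb a / 16 * √(n : ℝ)) :=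
        mul_le_mul_of_nonneg_left h7 hs0.le
      nlinarith
    have hl8 : (l : ℝ) ≤ 8 / bb p₀ * Real.log n := by
      have h7 : (l : ℝ) * (bb a * n / (8 * Real.log n)) ≤ n := by
        have h8 : bb a * n / (4 * Real.log n) = 2 * (bb a * n / (8 * Real.log n)) := by
          field_simp; ring
        have h9 : bb a * n / (8 * Real.log n) ≤ fn a n - 2 * √(n : ℝ) := by linarith
        have h10 := mul_le_mul_of_nonneg_left h9 hl0.le
        have h11 : (l : ℝ) * (fn a n - 2 * √(n : ℝ)) = (l : ℝ) * fn a n - (l : ℝ) * (2 * √(n : ℝ)) := by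
          ring
        linarith
      have h12 : (l : ℝ) * bb a ≤ 8 * Real.log n := by
        have h13 : (l : ℝ) * (bb a * n / (8 * Real.log n)) = ((l : ℝ) * bb a) * n / (8 * Real.log n) := by
          ring
        rw [h13, div_le_iff₀ (by positivity)] at h7
        have h14 : ((l : ℝ) * bb a) * n ≤ (8 * Real.log n) * n := by linarith
        exact le_of_mul_le_mul_right h14 hn0
      have h15 : (l : ℝ) * bb p₀ ≤ 8 * Real.log n :=
        le_trans (mul_le_mul_of_nonneg_left hbba hl0.le) h12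
      rw [div_mul_eq_mul_div, le_div_iff₀ hB0]
      exact h15
    -- the difference of the expectations
    have hdiff : fn b n - fn a n ≤ K * (b - a) * n / Real.log n := by
      have h7 : fn b n * Real.log n / n - fn a n * Real.log n / n =
          (fn b n - fn a n) * Real.log n / n := by ring
      rw [h7, div_lt_iff₀ hn0] at h5
      rw [le_div_iff₀ hL0]
      have h8 := bb_sub hab.le hb1
      have h9 : (b - a) / (1 - b) ≤ (b - a) / (1 - p₁) := by
        apply div_le_div_of_nonneg_left hba'.le h1p (by linarith)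
      have h10 : (bb b - bb a) / 2 + (b - a) ≤ K * (b - a) := by
        have h11 : K * (b - a) = (b - a) / (1 - p₁) / 2 + (b - a) := by
          rw [hK]; field_simp
        linarith
      have h12 := mul_le_mul_of_nonneg_right h10 hn0.le
      linarith
    -- the integral of the influence
    have hint : ∫ p in a..b, II l n p ≤ C₂ * (b - a) * n := by
      have hd : ∀ p : ℝ, HasDerivAt (fun q : ℝ => EE q (PH l : (Sym2 (Fin n) → Bool) → ℝ)) (II l n p) p :=
        fun p => hRUS p (Sym2 (Fin n)) (PH l)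
      rw [intervalIntegral.integral_eq_sub_of_hasDerivAt (fun x _ => hd x)
        ((II_cont hRUS l n).intervalIntegrable _ _)]
      have h7 : EE b (PH l : (Sym2 (Fin n) → Bool) → ℝ) - EE a (PH l : (Sym2 (Fin n) → Bool) → ℝ) ≤
          (l : ℝ) * (fn b n - fn a n) + (l : ℝ) * (2 * √(n : ℝ)) := by
        have : (l : ℝ) * (fn b n - fn a n) = (l : ℝ) * fn b n - (l : ℝ) * fn a n := by ring
        linarith
      have h8 : (l : ℝ) * (fn b n - fn a n) ≤ 8 / bb p₀ * Real.log n * (K * (b - a) * n / Real.log n) := by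
        calc (l : ℝ) * (fn b n - fn a n) ≤ (l : ℝ) * (K * (b - a) * n / Real.log n) :=
              mul_le_mul_of_nonneg_left hdiff hl0.le
          _ ≤ _ := mul_le_mul_of_nonneg_right hl8 (by positivity)
      have h9 : 8 / bb p₀ * Real.log n * (K * (b - a) * n / Real.log n) = 8 * K / bb p₀ * ((b - a) * n) := by
        field_simp
      have h10 : (l : ℝ) * (2 * √(n : ℝ)) ≤ (b - a) * n := by
        have h11 : Real.log n ≤ (b - a) * bb p₀ / 16 * √(n : ℝ) := le_trans hL3 h4.2
        have h12 : (l : ℝ) ≤ 8 / bb p₀ * ((b - a) * bb p₀ / 16 * √(n : ℝ)) :=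
          le_trans hl8 (mul_le_mul_of_nonneg_left h11 (by positivity))
        have h13 : 8 / bb p₀ * ((b - a) * bb p₀ / 16 * √(n : ℝ)) = (b - a) / 2 * √(n : ℝ) := by
          field_simp; ring
        rw [h13] at h12
        have h14 := mul_le_mul_of_nonneg_right h12 (show (0 : ℝ) ≤ 2 * √(n : ℝ) by positivity)
        have h15 : (b - a) / 2 * √(n : ℝ) * (2 * √(n : ℝ)) = (b - a) * (√(n : ℝ) * √(n : ℝ)) := by ring
        rw [h15, hss] at h14
        exact h14
      have h16 : C₂ * (b - a) * n = 8 * K / bb p₀ * ((b - a) * n) + (b - a) * n := by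
        rw [hC₂]; ring
      linarith
    -- the integral of the variance
    have hcl : Continuous (fun p : ℝ => C₁ / Real.log n ^ 3 * II l n p + C₁ * √(n : ℝ)) :=
      (continuous_const.mul (II_cont hRUS l n)).add continuous_const
    have h17 : ∫ p in a..b, vn p n ≤ ∫ p in a..b, (C₁ / Real.log n ^ 3 * II l n p + C₁ * √(n : ℝ)) := by
      apply intervalIntegral.integral_mono_on hab.le ((vn_cont hRUS n).intervalIntegrable _ _)
        (hcl.intervalIntegrable _ _)
      intro p hp
      exact hvn p (by linarith [hp.1]) (by linarith [hp.2])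
    have h18 : ∫ p in a..b, (C₁ / Real.log n ^ 3 * II l n p + C₁ * √(n : ℝ)) =
        C₁ / Real.log n ^ 3 * (∫ p in a..b, II l n p) + C₁ * √(n : ℝ) * (b - a) := by
      have i1 : IntervalIntegrable (fun p : ℝ => C₁ / Real.log n ^ 3 * II l n p) volume a b :=
        (continuous_const.mul (II_cont hRUS l n)).intervalIntegrable _ _
      have i2 : IntervalIntegrable (fun _ : ℝ => C₁ * √(n : ℝ)) volume a b :=
        continuous_const.intervalIntegrable _ _
      rw [intervalIntegral.integral_add i1 i2, intervalIntegral.integral_const_mul,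
        intervalIntegral.integral_const, smul_eq_mul]
      ring
    have h19 : C₁ / Real.log n ^ 3 * (∫ p in a..b, II l n p) ≤ C₁ / Real.log n ^ 3 * (C₂ * (b - a) * n) :=
      mul_le_mul_of_nonneg_left hint (by positivity)
    have h20 : √(n : ℝ) ≤ n / Real.log n ^ 3 := by
      rw [le_div_iff₀ (by positivity)]
      have := mul_le_mul_of_nonneg_left h2.2 hs0.le
      nlinarith
    have h21 : C₁ * √(n : ℝ) * (b - a) ≤ C₁ * (n / Real.log n ^ 3) * (b - a) := by
      apply mul_le_mul_of_nonneg_right _ hba'.le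
      exact mul_le_mul_of_nonneg_left h20 hC₁.le
    have h22 : C₁ * (C₂ + 1) * (b - a) * (n / Real.log n ^ 3) =
        C₁ / Real.log n ^ 3 * (C₂ * (b - a) * n) + C₁ * (n / Real.log n ^ 3) * (b - a) := by
      ring
    rw [h22]
    linarith
  obtain ⟨n₀, hn₀⟩ := eventually_atTop.mp hev
  exact ⟨n₀, hn₀⟩

end Pool.Agent.Helper93.PV
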