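import Pool.Agent.Helper61.PV.St

/-! # PV module Mom: assembly of the moments -/

set_option autoImplicit false

noncomputable section

namespace Pool.Agent.Helper93.PV

open Pool.Agent.Helper61.PV Finset

theorem exp_le_two {t : ℝ} (h0 : 0 ≤ t) (h1 : t ≤ 1 / 2) : Real.exp t ≤ 1 + 2 * t := by
  have h2 := Real.add_one_le_exp (-t)
  have h3 : Real.exp t * Real.exp (-t) = 1 := by rw [← Real.exp_add]; simp
  have h4 : 0 < Real.exp t := Real.exp_pos t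
  have h5 : Real.exp t * (1 - t) ≤ 1 := by
    rw [← h3]
    apply mul_le_mul_of_nonneg_left _ h4.le
    linarith
  nlinarith

/-- upper bound for the first moment -/
theorem core1 {N S P Pp w E t δ δ₁ : ℝ} (hN : 0 < N) (hP : 0 ≤ P) (hw : 1 ≤ w) (hE : E ≤ δ₁ * N)
    (h : N * S ≤ Pp * (w * N + E)) (hE0 : 0 ≤ E) (hPp : Pp ≤ Real.exp t * P) (ht : t ≤ δ₁) (hδ₁ : δ₁ = δ / 64)
    (hδ : 0 < δ) (hδ1 : δ < 1) : S ≤ (1 + δ) * w * P := by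
  have hd0 : 0 ≤ δ₁ := by rw [hδ₁]; linarith
  have hd1 : δ₁ ≤ 1 / 64 := by rw [hδ₁]; linarith
  have e1 : Real.exp t ≤ 1 + 2 * δ₁ := (Real.exp_le_exp.2 ht).trans (exp_le_two hd0 (by linarith))
  have h1 : Pp ≤ (1 + 2 * δ₁) * P := hPp.trans (mul_le_mul_of_nonneg_right e1 hP)
  have h2 : w * N + E ≤ (1 + δ₁) * w * N := by
    have : E ≤ δ₁ * (w * N) := hE.trans (mul_le_mul_of_nonneg_left (by nlinarith) hd0)
    linarith
  have h3 : N * S ≤ ((1 + 2 * δ₁) * P) * ((1 + δ₁) * w * N) := by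
    refine h.trans ((mul_le_mul_of_nonneg_right h1 (by positivity)).trans ?_)
    exact mul_le_mul_of_nonneg_left h2 (by positivity)
  have h4 : (1 + 2 * δ₁) * (1 + δ₁) ≤ 1 + δ := by
    have : δ = 64 * δ₁ := by rw [hδ₁]; ring
    rw [this]; nlinarith
  have h5 : N * S ≤ N * ((1 + δ) * w * P) := by
    refine h3.trans ?_
    have : ((1 + 2 * δ₁) * P) * ((1 + δ₁) * w * N) = ((1 + 2 * δ₁) * (1 + δ₁)) * (w * P * N) := by ring
    rw [this]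
    have h6 : N * ((1 + δ) * w * P) = (1 + δ) * (w * P * N) := by ring
    rw [h6]
    exact mul_le_mul_of_nonneg_right h4 (by positivity)
  exact le_of_mul_le_mul_left h5 hN

/-- lower bound for the first moment -/
theorem core2 {N S P Pm w E t δ δ₁ : ℝ} (hN : 0 < N) (hP : 0 ≤ P) (hw : 1 ≤ w) (hE : E ≤ δ₁ * N)
    (h : Pm * (w * N - E) ≤ N * S) (hPm : (1 - t) * P ≤ Pm) (ht : t ≤ δ₁) (hδ₁ : δ₁ = δ / 64)
    (hδ : 0 < δ) (hδ1 : δ < 1) : (1 - δ) * w * P ≤ S := by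
  have hd0 : 0 ≤ δ₁ := by rw [hδ₁]; linarith
  have hd1 : δ₁ ≤ 1 / 64 := by rw [hδ₁]; linarith
  have h1 : (1 - δ₁) * P ≤ Pm := le_trans (mul_le_mul_of_nonneg_right (by linarith) hP) hPm
  have h2 : (1 - δ₁) * w * N ≤ w * N - E := by
    have : E ≤ δ₁ * (w * N) := hE.trans (mul_le_mul_of_nonneg_left (by nlinarith) hd0)
    linarith
  have h2p : 0 ≤ (1 - δ₁) * w * N := by
    have : 0 ≤ 1 - δ₁ := by linarith
    positivity
  have h1p : 0 ≤ (1 - δ₁) * P := mul_nonneg (by linarith) hP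
  have h3 : ((1 - δ₁) * P) * ((1 - δ₁) * w * N) ≤ N * S := by
    refine le_trans ?_ h
    exact mul_le_mul h1 h2 h2p (h1p.trans h1)
  have h4 : 1 - δ ≤ (1 - δ₁) * (1 - δ₁) := by
    have : δ = 64 * δ₁ := by rw [hδ₁]; ring
    rw [this]; nlinarith
  have h5 : N * ((1 - δ) * w * P) ≤ N * S := by
    refine le_trans ?_ h3
    have : ((1 - δ₁) * P) * ((1 - δ₁) * w * N) = ((1 - δ₁) * (1 - δ₁)) * (w * P * N) := by ring
    rw [this]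
    have h6 : N * ((1 - δ) * w * P) = (1 - δ) * (w * P * N) := by ring
    rw [h6]
    exact mul_le_mul_of_nonneg_right h4 (by positivity)
  exact le_of_mul_le_mul_left h5 hN

/-- pair moment -/
theorem core3 {N₁ N₂ S P Pp w v E₁ E₂ t δ δ₁ : ℝ} (hN₁ : 0 < N₁) (hN₂ : 0 < N₂) (hP : 0 ≤ P) (hw : 1 ≤ w)
    (hv : 1 ≤ v) (hE₁ : E₁ ≤ δ₁ * N₁) (hE₂ : E₂ ≤ δ₁ * N₂) (hE₁0 : 0 ≤ E₁) (hE₂0 : 0 ≤ E₂)
    (h : N₁ * N₂ * S ≤ Pp * (w * N₁ + E₁) * (v * N₂ + E₂)) (hPp : Pp ≤ Real.exp t * P) (ht : t ≤ δ₁)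
    (hδ₁ : δ₁ = δ / 64) (hδ : 0 < δ) (hδ1 : δ < 1) : S ≤ (1 + δ) * w * v * P := by
  have hd0 : 0 ≤ δ₁ := by rw [hδ₁]; linarith
  have hd1 : δ₁ ≤ 1 / 64 := by rw [hδ₁]; linarith
  have e1 : Real.exp t ≤ 1 + 2 * δ₁ := (Real.exp_le_exp.2 ht).trans (exp_le_two hd0 (by linarith))
  have h1 : Pp ≤ (1 + 2 * δ₁) * P := hPp.trans (mul_le_mul_of_nonneg_right e1 hP)
  have h2 : w * N₁ + E₁ ≤ (1 + δ₁) * w * N₁ := by
    have : E₁ ≤ δ₁ * (w * N₁) := hE₁.trans (mul_le_mul_of_nonneg_left (by nlinarith) hd0)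
    linarith
  have h2' : v * N₂ + E₂ ≤ (1 + δ₁) * v * N₂ := by
    have : E₂ ≤ δ₁ * (v * N₂) := hE₂.trans (mul_le_mul_of_nonneg_left (by nlinarith) hd0)
    linarith
  have p1 : 0 ≤ w * N₁ + E₁ := by positivity
  have p2 : 0 ≤ v * N₂ + E₂ := by positivity
  have h3 : N₁ * N₂ * S ≤ ((1 + 2 * δ₁) * P) * ((1 + δ₁) * w * N₁) * ((1 + δ₁) * v * N₂) := by
    refine h.trans ((mul_le_mul_of_nonneg_right (mul_le_mul_of_nonneg_right h1 p1) p2).trans ?_)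
    have q1 : 0 ≤ (1 + 2 * δ₁) * P := by positivity
    exact mul_le_mul (mul_le_mul_of_nonneg_left h2 q1) h2' p2 (by positivity)
  have h4 : (1 + 2 * δ₁) * (1 + δ₁) * (1 + δ₁) ≤ 1 + δ := by
    have : δ = 64 * δ₁ := by rw [hδ₁]; ring
    rw [this]
    have a1 : δ₁ * δ₁ ≤ δ₁ := by nlinarith
    have a2 : δ₁ * δ₁ * δ₁ ≤ δ₁ := by nlinarith [mul_nonneg hd0 hd0]
    nlinarith
  have h5 : (N₁ * N₂) * S ≤ (N₁ * N₂) * ((1 + δ) * w * v * P) := by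
    refine h3.trans ?_
    have : ((1 + 2 * δ₁) * P) * ((1 + δ₁) * w * N₁) * ((1 + δ₁) * v * N₂)
      = ((1 + 2 * δ₁) * (1 + δ₁) * (1 + δ₁)) * (w * v * P * N₁ * N₂) := by ring
    rw [this]
    have h6 : (N₁ * N₂) * ((1 + δ) * w * v * P) = (1 + δ) * (w * v * P * N₁ * N₂) := by ring
    rw [h6]
    exact mul_le_mul_of_nonneg_right h4 (by positivity)
  exact le_of_mul_le_mul_left h5 (by positivity)

theorem one_le_ratio {n : ℕ} (hn : 1 ≤ n) : (1 : ℝ) ≤ (n : ℝ) / Nat.totient n := by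
  have h1 : 0 < Nat.totient n := Nat.totient_pos.2 hn
  rw [one_le_div (by exact_mod_cast h1)]
  exact_mod_cast Nat.totient_le n

theorem hMom (hFmo : StFmo) (hSmo : StSmo) (hCar : StCar) (hSz2 : StSz2) (hErr : StErr) (hApp : StApp)
    (hNum : StNum) : StMom := by
  intro W C κ δ hW hC hκ hκ1 hδ hδ1
  obtain ⟨δ₁, hδ₁⟩ : ∃ δ₁ : ℝ, δ₁ = δ / 64 := ⟨_, rfl⟩
  have hd0 : 0 < δ₁ := by rw [hδ₁]; linarith
  have hd1 : δ₁ < 1 := by rw [hδ₁]; linarith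
  have hd2 : δ₁ ≤ 1 / 2 := by rw [hδ₁]; linarith
  obtain ⟨H₁, hH₁⟩ := hNum W C κ δ₁ hW hC hκ hκ1 hd0 hd1
  obtain ⟨x₀, hx₀⟩ := hApp 8 3
  refine ⟨max (max H₁ x₀) 3, ?_⟩
  intro H hH d hd hdH F A h hcond
  have hHH₁ : H₁ ≤ H := le_trans (le_trans (le_max_left _ _) (le_max_left _ _)) hH
  have hHx₀ : x₀ ≤ H := le_trans (le_trans (le_max_right _ _) (le_max_left _ _)) hH
  have hH3 : 3 ≤ H := le_trans (le_max_right _ _) hH
  have hH1 : 1 ≤ H := by omega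
  obtain ⟨B, hB⟩ := hH₁ H hHH₁ d hd hdH
  have hWr : (1 : ℝ) ≤ W := by exact_mod_cast hW
  have hHr : (3 : ℝ) ≤ H := by exact_mod_cast hH3
  have hh₀ : 0 < κ * H / W := by positivity
  have hh : ∀ i, κ * H / W ≤ h i := by
    intro i
    rw [div_le_iff₀ (by linarith)]
    have := hcond.2.1 i
    linarith
  have hP : (0 : ℝ) ≤ ∏ i, (h i : ℝ) := Finset.prod_nonneg (fun i _ => Nat.cast_nonneg _)
  have hm9 : ∀ m : ℕ, 1 + 8 / κ ≤ m → 9 ≤ m := by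
    intro m hm
    have h1 : (8 : ℝ) < 8 / κ := by
      rw [lt_div_iff₀ hκ]; linarith
    have h2 : (9 : ℝ) < m := by linarith
    have h3 : 9 < m := by exact_mod_cast h2
    omega
  -- facts for one m
  have key : ∀ m : ℕ, 1 + 8 / κ ≤ m → (m : ℝ) ≤ C * Sz H d →
      1 ≤ m ∧ m ≤ B ∧ 1 ≤ B ∧ x₀ ≤ 16 * H * m ^ d ∧
      4 * (2 * (m : ℝ) * B) * (d + 1) ≤ 2 * δ₁ * (κ * H / W) ∧
      (W : ℝ) * m ≤ Real.log ((16 * H * m ^ d : ℕ) : ℝ) ^ 3 ∧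
      2 * ((16 * H * m ^ d : ℕ) : ℝ) / Real.log ((16 * H * m ^ d : ℕ) : ℝ) ^ 8 ≤ δ₁ * ((m ^ d * B : ℕ) : ℝ) ∧
      2 * ((16 * H * m ^ d : ℕ) : ℝ) / Real.log ((16 * H * m ^ d : ℕ) : ℝ) ^ 8 ≤
        δ₁ * ((m ^ (d - 1) * B : ℕ) : ℝ) ∧
      0 ≤ 2 * ((16 * H * m ^ d : ℕ) : ℝ) / Real.log ((16 * H * m ^ d : ℕ) : ℝ) ^ 8 := by
    intro m hm hmC
    have h9 := hm9 m hm
    obtain ⟨b1, b2, b3, b4, b5⟩ := hB m (by omega) hmC
    obtain ⟨c1, c2, c3⟩ := hErr H d m B δ₁ hH3 hd h9 hd0 b3 b5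
    have hΛ : 0 ≤ Real.log H + d := by
      have : 0 ≤ Real.log H := Real.log_nonneg (by linarith)
      positivity
    refine ⟨by omega, b1, by omega, ?_, b2, ?_, c2, c3, ?_⟩
    · have : 1 ≤ m ^ d := Nat.one_le_pow _ _ (by omega)
      nlinarith
    · exact b4.trans (pow_le_pow_left₀ hΛ c1 3)
    · have : 0 ≤ Real.log ((16 * H * m ^ d : ℕ) : ℝ) := hΛ.trans c1
      positivity
  have bounds : ∀ m : ℕ, 4 * (2 * (m : ℝ) * B) * (d + 1) ≤ 2 * δ₁ * (κ * H / W) →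
      2 * ((2 * m * B : ℕ) : ℝ) * ((d : ℝ) + 1) / (κ * H / W) ≤ δ₁ ∧
      2 * ((2 * m * B : ℕ) : ℝ) * ((d : ℝ) + 1) ≤ κ * H / W := by
    intro m hm
    have h1 : 2 * ((2 * m * B : ℕ) : ℝ) * ((d : ℝ) + 1) ≤ δ₁ * (κ * H / W) := by
      push_cast
      linarith
    constructor
    · rw [div_le_iff₀ hh₀]; exact h1
    · nlinarith
  constructor
  · intro m hm hmC hcop
    obtain ⟨k1, k2, k3, k4, k5, k6, k7, k8, k9⟩ := key m hm hmC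
    obtain ⟨q1, q2⟩ := bounds m k5
    have hR1 : m ≤ 2 * m * B := by nlinarith
    have hR2 : B ≤ 2 * m * B := by nlinarith
    have hapb := hx₀ (16 * H * m ^ d) W (m ^ d * B) k4 hW (by
      have : (1 : ℝ) ≤ m := by exact_mod_cast k1
      nlinarith)
    have hsz := hSz2 W H d m m B κ δ₁ F A h hW hH1 hκ hκ1 hd0 hd2 hcond hm le_rfl k5
    obtain ⟨f1, f2⟩ := hFmo d m B (2 * m * B) W (16 * H * m ^ d) _ F A h k1 k3 hW hR1 hR2 k9 hapb (by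
      intro a ha
      have := hsz a (by
        intro i
        have := ha i
        push_cast at this ⊢
        constructor <;> nlinarith [this.1, this.2, Int.natCast_nonneg m, Int.natCast_nonneg B,
          mul_nonneg (Int.natCast_nonneg m) (Int.natCast_nonneg B)])
      exact_mod_cast this) hcop
    obtain ⟨-, hcar⟩ := hCar d A h
    obtain ⟨car1, car2⟩ := hcar (2 * m * B) (κ * H / W) hh₀ hh
    have hNpos : (0 : ℝ) < ((m ^ d * B : ℕ) : ℝ) := by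
      have : 0 < m ^ d * B := Nat.mul_pos (pow_pos (by omega) _) (by omega)
      exact_mod_cast this
    have hconv : (W : ℝ) * ((m ^ d * B : ℕ) : ℝ) / Nat.totient W
      = (W : ℝ) / Nat.totient W * ((m ^ d * B : ℕ) : ℝ) := by ring
    rw [hconv] at f1 f2
    constructor
    · refine core2 hNpos hP (one_le_ratio hW) k7 (f2 ?_) (car2 q2) q1 hδ₁ hδ hδ1
      intro i
      have h1 := hh i
      have h2 : 2 * ((2 * m * B : ℕ) : ℝ) ≤ 2 * ((2 * m * B : ℕ) : ℝ) * ((d : ℝ) + 1) := by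
        have : (0 : ℝ) ≤ ((2 * m * B : ℕ) : ℝ) := Nat.cast_nonneg _
        have : (0 : ℝ) ≤ (d : ℝ) := Nat.cast_nonneg _
        nlinarith
      have h3 : ((2 * (2 * m * B) : ℕ) : ℝ) ≤ (h i : ℝ) := by
        push_cast at h2 q2 ⊢
        linarith
      exact_mod_cast h3
    · exact core1 hNpos hP (one_le_ratio hW) k7 f1 k9 car1 q1 hδ₁ hδ hδ1
  · intro m₁ m₂ hm₁ h12 hm₂C
    have h12r : (m₁ : ℝ) ≤ m₂ := by exact_mod_cast h12.le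
    have hm₂ : 1 + 8 / κ ≤ m₂ := hm₁.trans h12r
    obtain ⟨k1, k2, k3, k4, k5, k6, k7, k8, k9⟩ := key m₁ hm₁ (h12r.trans hm₂C)
    obtain ⟨l1, l2, l3, l4, l5, l6, l7, l8, l9⟩ := key m₂ hm₂ hm₂C
    obtain ⟨q1, q2⟩ := bounds m₂ l5
    have hapb₁ := hx₀ (16 * H * m₁ ^ d) W (m₁ ^ d * B) k4 hW (by
      have : (1 : ℝ) ≤ m₁ := by exact_mod_cast k1
      nlinarith)
    have hWq : 1 ≤ W * (m₂ - m₁) := Nat.mul_pos hW (by omega)
    have hapb₂ := hx₀ (16 * H * m₂ ^ d) (W * (m₂ - m₁)) (m₂ ^ (d - 1) * B) l4 hWq (by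
      have h1 : ((W * (m₂ - m₁) : ℕ) : ℝ) ≤ (W : ℝ) * m₂ := by
        have : W * (m₂ - m₁) ≤ W * m₂ := Nat.mul_le_mul_left _ (Nat.sub_le _ _)
        exact_mod_cast this
      exact h1.trans l6)
    have hsz₁ := hSz2 W H d m₂ m₁ B κ δ₁ F A h hW hH1 hκ hκ1 hd0 hd2 hcond hm₁ h12.le l5
    have hsz₂ := hSz2 W H d m₂ m₂ B κ δ₁ F A h hW hH1 hκ hκ1 hd0 hd2 hcond hm₂ le_rfl l5
    have hs := hSmo d m₁ m₂ B W (16 * H * m₁ ^ d) (16 * H * m₂ ^ d) _ _ F A h hd k1 h12 l2 hW k9 l9 hapb₁ hapb₂ (by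
      intro a ha
      have s1 := hsz₁ a ha
      have s2 := hsz₂ a ha
      refine ⟨by exact_mod_cast s1, s2.1, ?_⟩
      have h1 : W * (m₂ - m₁) * (m₂ ^ (d - 1) * B) ≤ W * (m₂ ^ d * B) := by
        have e : m₂ ^ d = m₂ * m₂ ^ (d - 1) := by
          conv_lhs => rw [show d = (d - 1) + 1 by omega, pow_succ']
        rw [e]
        have : W * (m₂ - m₁) * (m₂ ^ (d - 1) * B) = W * ((m₂ - m₁) * m₂ ^ (d - 1) * B) := by ring
        rw [this]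
        exact Nat.mul_le_mul_left _ (Nat.mul_le_mul_right _ (Nat.mul_le_mul_right _ (Nat.sub_le _ _)))
      have h2 : (((W * (m₂ - m₁) : ℕ) : ℤ)) * ((m₂ ^ (d - 1) * B : ℕ) : ℤ) ≤ (W : ℤ) * ((m₂ ^ d * B : ℕ) : ℤ) := by
        exact_mod_cast h1
      linarith [s2.2])
    obtain ⟨-, hcar⟩ := hCar d A h
    obtain ⟨car1, car2⟩ := hcar (2 * m₂ * B) (κ * H / W) hh₀ hh
    have hN₁ : (0 : ℝ) < ((m₁ ^ d * B : ℕ) : ℝ) := by
      have : 0 < m₁ ^ d * B := Nat.mul_pos (pow_pos (by omega) _) (by omega)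
      exact_mod_cast this
    have hN₂ : (0 : ℝ) < ((m₂ ^ (d - 1) * B : ℕ) : ℝ) := by
      have : 0 < m₂ ^ (d - 1) * B := Nat.mul_pos (pow_pos (by omega) _) (by omega)
      exact_mod_cast this
    have c1 : (W : ℝ) * ((m₁ ^ d * B : ℕ) : ℝ) / Nat.totient W
      = (W : ℝ) / Nat.totient W * ((m₁ ^ d * B : ℕ) : ℝ) := by ring
    have c2 : ((W * (m₂ - m₁) : ℕ) : ℝ) * ((m₂ ^ (d - 1) * B : ℕ) : ℝ) / Nat.totient (W * (m₂ - m₁))
      = ((W * (m₂ - m₁) : ℕ) : ℝ) / Nat.totient (W * (m₂ - m₁)) * ((m₂ ^ (d - 1) * B : ℕ) : ℝ) := by ring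
    rw [c1, c2] at hs
    exact core3 hN₁ hN₂ hP (one_le_ratio hW) (one_le_ratio hWq) k7 l8 k9 l9 hs car1 q1 hδ₁ hδ hδ1

end Pool.Agent.Helper93.PV
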